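import Pool.Agent.Helper17.UD.Units
import Pool.Agent.Helper77.AU.Root

/-!
# Units+ with moving forms

The bounds of `units_plus_u`, uniform in the linear forms: the constants are linear in the heights of the coefficients.
-/

set_option autoImplicit false

namespace Pool.Agent.EXP

open NumberField IntermediateField Pool.Agent.Helper64.Vojta Pool.Agent.VZ Pool.Agent.SL

universe u

section

variable {k : Type u} [Field k] [NumberField k] {L : Type u} [Field L] [NumberField L] [Algebra k L]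

/-- the sizes of the coefficients -/
noncomputable def aa {m : ℕ} (a : Fin m → k) (w : Pl L) : ℝ := ∑ j, Real.log (sn w ![algebraMap k L (a j), 1])

theorem log_sn_two_nonneg (w : Pl L) (z : L) : 0 ≤ Real.log (sn w ![z, 1]) := by
  rw [sn_two]
  exact Real.log_nonneg (le_max_right _ _)

omit [NumberField k] in
theorem aa_nonneg {m : ℕ} (a : Fin m → k) (w : Pl L) : 0 ≤ aa a w :=
  Finset.sum_nonneg fun _ _ => log_sn_two_nonneg _ _

omit [NumberField k] in
theorem nv_le_exp_aa {m : ℕ} (a : Fin m → k) (w : Pl L) (j : Fin m) : nv w (algebraMap k L (a j)) ≤ Real.exp (aa a w) := by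
  have h1 : nv w (algebraMap k L (a j)) ≤ sn w ![algebraMap k L (a j), 1] := by
    rw [sn_two]; exact le_max_left _ _
  have h2 : 0 < sn w ![algebraMap k L (a j), 1] := by
    rw [sn_two]; exact zero_lt_one.trans_le (le_max_right _ _)
  refine h1.trans ?_
  rw [← Real.log_le_iff_le_exp h2]
  exact Finset.single_le_sum (f := fun j => Real.log (sn w ![algebraMap k L (a j), 1]))
    (fun j _ => log_sn_two_nonneg _ _) (Finset.mem_univ j)

theorem sum_aa_le {m r : ℕ} (hr : Module.finrank k L ≤ r) (a : Fin m → k) (W : Finset (Pl L)) :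
    ∑ w ∈ W, aa a w ≤ r * ∑ j, Height.logHeight₁ (a j) := by
  unfold aa
  rw [Finset.sum_comm, Finset.mul_sum]
  refine Finset.sum_le_sum fun j _ => ?_
  have h1 := sum_le_logHeight (cons_one_ne (algebraMap k L (a j))) (fun w => by rw [sn_two]; exact le_max_right _ _) W
  refine h1.trans ?_
  rw [← Height.logHeight₁_eq_logHeight, Pool.Agent.Helper77.AU.logHeight₁_algebraMap]
  exact mul_le_mul_of_nonneg_right (by exact_mod_cast hr) (Height.zero_le_logHeight₁ _)

/-- the local terms, made nonnegative -/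
noncomputable def gm {m : ℕ} (K : ℝ) (a : Fin m → k) (x : Fin m → L) (w : Pl L) : ℝ :=
  loc w (cst a) x + aa a w + (match w with | .inl _ => K | .inr _ => 0)

theorem gm_nonneg {m : ℕ} (a : Fin m → k) (x : Fin m → L) (hx : x ≠ 0) (hax : ev (cst a) x ≠ 0) (w : Pl L) :
    0 ≤ gm (Real.log ((m + 1 : ℝ) ^ 2)) a x w := by
  have hB : (0 : ℝ) ≤ Real.exp (aa a w) * sn w x := mul_nonneg (Real.exp_pos _).le (sn_pos w hx).le
  have hterm : ∀ j ∈ (Finset.univ : Finset (Fin m)), nv w ((cst a : Fin m → L) j * x j) ≤ Real.exp (aa a w) * sn w x := by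
    intro j _
    rw [nv_mul]
    exact mul_le_mul (nv_le_exp_aa a w j) (le_sn _ _ _) (nv_nonneg _ _) (Real.exp_pos _).le
  unfold gm loc
  rcases w with w | w
  · have h1 := nv_sum_le (.inl w) Finset.univ (fun j => (cst a : Fin m → L) j * x j) _ hB hterm
    rw [Finset.card_univ, Fintype.card_fin] at h1
    have h2 := Real.log_le_log (nv_pos (.inl w) hax) h1
    rw [Real.log_mul (by positivity) (mul_pos (Real.exp_pos _) (sn_pos _ hx)).ne',
      Real.log_mul (Real.exp_pos _).ne' (sn_pos (.inl w) hx).ne', Real.log_exp] at h2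
    show 0 ≤ Real.log (sn (.inl w) x) - Real.log (nv (.inl w) (ev (cst a) x)) + aa a (.inl w) + Real.log ((m + 1 : ℝ) ^ 2)
    linarith
  · have h1 := nv_sum_le_inr w Finset.univ (fun j => (cst a : Fin m → L) j * x j) _ hB hterm
    have h2 := Real.log_le_log (nv_pos (.inr w) hax) h1
    rw [Real.log_mul (Real.exp_pos _).ne' (sn_pos (.inr w) hx).ne', Real.log_exp] at h2
    show 0 ≤ Real.log (sn (.inr w) x) - Real.log (nv (.inr w) (ev (cst a) x)) + aa a (.inr w) + 0
    linarith

/-- all places outside a finite set have absolute value one -/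
theorem sum_log_nv {y : L} (hy : y ≠ 0) (W : Finset (Pl L)) (hW1 : ∀ w : InfinitePlace L, Sum.inl w ∈ W)
    (hW2 : ∀ w : FinitePlace L, Real.log (nv (.inr w) y) ≠ 0 → Sum.inr w ∈ W) : ∑ w ∈ W, Real.log (nv w y) = 0 := by
  have hy' : (fun _ : Fin 1 => y) ≠ 0 := fun h => hy (congrFun h 0)
  have hs : ∀ w : Pl L, sn w (fun _ : Fin 1 => y) = nv w y := by
    intro w
    exact le_antisymm (sn_le w _ _ (nv_nonneg _ _) fun _ => le_rfl) (le_sn w (fun _ : Fin 1 => y) 0)
  have h1 := Pool.Agent.Helper52.Vojta.logHeight_eq_sum hy' W hW1 (fun w hw => hW2 w (by rwa [hs] at hw))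
  have h2 := logHeight_eq hy'
  simp only [hs] at h1 h2
  rw [← h1, h2, product_formula_log hy]

theorem sum_gm_le {m r : ℕ} (hr : Module.finrank k L ≤ r) (a : Fin m → k) (x : Fin m → L) (hx : x ≠ 0)
    (hax : ev (cst a) x ≠ 0) (W : Finset (Pl L)) :
    ∑ w ∈ W, gm (Real.log ((m + 1 : ℝ) ^ 2)) a x w ≤ Height.logHeight x + r * ∑ j, Height.logHeight₁ (a j) +
      (Module.finrank ℚ k * r : ℕ) * Real.log ((m + 1 : ℝ) ^ 2) := by
  classical
  set K : ℝ := Real.log ((m + 1 : ℝ) ^ 2) with hK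
  have hm0 : (0 : ℝ) ≤ m := Nat.cast_nonneg _
  have hK0 : 0 ≤ K := Real.log_nonneg (by nlinarith [sq_nonneg (m : ℝ)])
  have hf1 : (Function.support fun w : FinitePlace L => Real.log (sn (.inr w) x)).Finite :=
    log_support _ (fin_support_sn hx)
  have hf2 : (Function.support fun w : FinitePlace L => Real.log (nv (.inr w) (ev (cst a) x))).Finite :=
    log_support _ (fin_support_nv hax)
  set W' : Finset (Pl L) := W ∪ (Finset.univ.image Sum.inl ∪ (hf1.toFinset.image Sum.inr ∪ hf2.toFinset.image Sum.inr)) with hW'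
  have h0 : ∑ w ∈ W, gm K a x w ≤ ∑ w ∈ W', gm K a x w :=
    Finset.sum_le_sum_of_subset_of_nonneg Finset.subset_union_left fun w _ _ => gm_nonneg a x hx hax w
  have h1 := Pool.Agent.Helper52.Vojta.logHeight_eq_sum hx W' (by
    intro w
    simp [hW']) (by
    intro w hw
    simp only [hW', Finset.mem_union, Finset.mem_image, Set.Finite.mem_toFinset]
    right; right; left
    exact ⟨w, hw, rfl⟩)
  have h2 := sum_log_nv hax W' (by
    intro w
    simp [hW']) (by
    intro w hw
    simp only [hW', Finset.mem_union, Finset.mem_image, Set.Finite.mem_toFinset]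
    right; right; right
    exact ⟨w, hw, rfl⟩)
  have h3 := sum_aa_le hr a W'
  have h4 : ∑ w ∈ W', (match w with | .inl _ => K | .inr _ => (0 : ℝ)) ≤ (Module.finrank ℚ k * r : ℕ) * K := by
    have h5 : ∑ w ∈ W', (match w with | .inl _ => K | .inr _ => (0 : ℝ)) ≤ Fintype.card (InfinitePlace L) * K := by
      rw [← Finset.toLeft_disjSum_toRight (u := W'), Finset.sum_disjSum]
      simp only [Finset.sum_const_zero, add_zero, Finset.sum_const, nsmul_eq_mul]
      refine mul_le_mul_of_nonneg_right ?_ hK0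
      exact_mod_cast Finset.card_le_univ _
    exact h5.trans (mul_le_mul_of_nonneg_right (by exact_mod_cast card_inf_le' hr) hK0)
  have h6 : ∑ w ∈ W', gm K a x w = ∑ w ∈ W', Real.log (sn w x) - ∑ w ∈ W', Real.log (nv w (ev (cst a) x)) +
      ∑ w ∈ W', aa a w + ∑ w ∈ W', (match w with | .inl _ => K | .inr _ => (0 : ℝ)) := by
    rw [← Finset.sum_sub_distrib, ← Finset.sum_add_distrib, ← Finset.sum_add_distrib]
    rfl
  rw [h6, ← h1, h2] at h0
  linarith

end

variable {k : Type u} [Field k] [NumberField k]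

theorem hdisj_above {L : Type u} [Field L] [NumberField L] [Algebra k L] (S' : Finset (Pl k)) :
    (S' : Set (Pl k)).PairwiseDisjoint (above L) := by
  classical
  intro a _ b _ hab
  rw [Function.onFun, Finset.disjoint_left]
  intro w hwa hwb
  exact hab (above_unique (mem_above.mp hwa) (mem_above.mp hwb))

theorem loc_le_gm {L : Type u} [Field L] [NumberField L] [Algebra k L] {m : ℕ} (a : Fin m → k) (x : Fin m → L) (w : Pl L) :
    loc w (cst a) x ≤ gm (Real.log ((m + 1 : ℝ) ^ 2)) a x w := by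
  have hm0 : (0 : ℝ) ≤ m := Nat.cast_nonneg _
  have hK0 : 0 ≤ Real.log ((m + 1 : ℝ) ^ 2) := Real.log_nonneg (by nlinarith [sq_nonneg (m : ℝ)])
  have h1 := aa_nonneg (L := L) a w
  unfold gm
  rcases w with w | w
  · show _ ≤ loc (.inl w) (cst a) x + aa a (.inl w) + Real.log ((m + 1 : ℝ) ^ 2)
    linarith
  · show _ ≤ loc (.inr w) (cst a) x + aa a (.inr w) + 0
    linarith

/-- The total proximity is at most `q h(y)` up to the heights of the forms. -/
theorem lam_le_m (S : Finset (Pl k)) {n q : ℕ} (r : ℕ) :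
    ∃ c : ℝ, 0 ≤ c ∧ ∀ (ℓ : Fin q → Fin (n + 1) → k) (y : Fin n → AlgebraicClosure k), dg y ≤ r →
      (∀ i, ev (cst (ℓ i)) (crd y) ≠ 0) →
      lam ℓ S y ≤ q * hgt y + c * (1 + ∑ i, ∑ j, Height.logHeight₁ (ℓ i j)) := by
  classical
  set K : ℝ := Real.log (((n + 1 : ℕ) + 1 : ℝ) ^ 2) with hK
  have hn0 : (0 : ℝ) ≤ ((n + 1 : ℕ) : ℝ) := Nat.cast_nonneg _
  have hK0 : 0 ≤ K := Real.log_nonneg (by nlinarith [sq_nonneg (((n + 1 : ℕ) : ℝ))])
  set B : ℝ := (Module.finrank ℚ k * r : ℕ) * K with hB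
  have hB0 : 0 ≤ B := by positivity
  refine ⟨r + q * B, by positivity, ?_⟩
  intro ℓ y hdg hne
  set x := crd y with hx
  have hx0 : x ≠ 0 := crd_ne y
  have hdgp := dg_pos' y
  have hd1 : (1 : ℝ) ≤ dg y := by
    have : 0 < dg y := by exact_mod_cast hdgp
    exact_mod_cast this
  have hhgt : (dg y : ℝ) * hgt y = Height.logHeight x := by
    unfold hgt
    rw [mul_div_cancel₀ _ hdgp.ne']
  have hfd : FiniteDimensional k (fld y) :=
    finiteDimensional_adjoin fun x _ => Algebra.IsIntegral.isIntegral x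
  set H : ℝ := ∑ i, ∑ j, Height.logHeight₁ (ℓ i j) with hH
  have hH0 : 0 ≤ H := Finset.sum_nonneg fun i _ => Finset.sum_nonneg fun j _ => Height.zero_le_logHeight₁ _
  have hlam : (dg y : ℝ) * lam ℓ S y = ∑ i, ∑ w' ∈ S.biUnion (above (fld y)), loc w' (cst (ℓ i)) x := by
    unfold lam
    rw [mul_div_cancel₀ _ hdgp.ne', Finset.sum_comm (s := Finset.univ), Finset.sum_biUnion (hdisj_above S)]
    rfl
  have h1 : (dg y : ℝ) * lam ℓ S y ≤ q * Height.logHeight x + r * H + q * B := by
    rw [hlam]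
    calc _ ≤ ∑ i, (Height.logHeight x + r * ∑ j, Height.logHeight₁ (ℓ i j) + B) := by
          refine Finset.sum_le_sum fun i _ => ?_
          exact (Finset.sum_le_sum fun w _ => loc_le_gm (ℓ i) x w).trans (sum_gm_le hdg (ℓ i) x hx0 (hne i) _)
      _ = _ := by
          rw [Finset.sum_add_distrib, Finset.sum_add_distrib, ← Finset.mul_sum]
          simp only [Finset.sum_const, Finset.card_univ, Fintype.card_fin, nsmul_eq_mul]
          rfl
  rw [← hhgt] at h1
  have h2 : 0 ≤ (r : ℝ) * H := by positivity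
  have h3 : 0 ≤ (q : ℝ) * B := by positivity
  have h4 : (dg y : ℝ) * lam ℓ S y ≤ dg y * (q * hgt y + (r * H + q * B)) := by nlinarith
  have h5 := le_of_mul_le_mul_left h4 hdgp
  have h6 : 0 ≤ (r : ℝ) := Nat.cast_nonneg _
  nlinarith [mul_nonneg h3 hH0]

/-- The core estimate with moving forms. -/
theorem core_m (S : Finset (Pl k)) {n q : ℕ} (r : ℕ) :
    ∃ c : ℝ, 0 ≤ c ∧ ∀ (ℓ : Fin q → Fin (n + 1) → k) (y : Fin n → AlgebraicClosure k) (E : ℝ), dg y ≤ r → 0 ≤ E →
      (∀ i, ev (cst (ℓ i)) (crd y) ≠ 0) → q * hgt y - E ≤ lam ℓ S y → ∀ i i' : Fin q,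
        Height.logHeight₁ (Algebra.norm k (ev (cst (ℓ i)) (crd y) / ev (cst (ℓ i')) (crd y))) ≤
          (r : ℝ) * hgt y + c * (1 + ∑ i, ∑ j, Height.logHeight₁ (ℓ i j)) ∧
        ∀ T : Finset (FinitePlace k), (∀ v ∈ T, (Sum.inr v : Pl k) ∉ S) →
          ∑ v ∈ T, |Real.log (v (Algebra.norm k (ev (cst (ℓ i)) (crd y) / ev (cst (ℓ i')) (crd y))))| ≤
            2 * (r : ℝ) * E + c * (1 + ∑ i, ∑ j, Height.logHeight₁ (ℓ i j)) := by
  classical
  set K : ℝ := Real.log (((n + 1 : ℕ) + 1 : ℝ) ^ 2) with hK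
  have hn0 : (0 : ℝ) ≤ ((n + 1 : ℕ) : ℝ) := Nat.cast_nonneg _
  have hK0 : 0 ≤ K := Real.log_nonneg (by nlinarith [sq_nonneg (((n + 1 : ℕ) : ℝ))])
  set B : ℝ := (Module.finrank ℚ k * r : ℕ) * K with hB
  have hB0 : 0 ≤ B := by positivity
  have hr0 : 0 ≤ (r : ℝ) := Nat.cast_nonneg _
  refine ⟨4 * r + 2 * (q * B) + B, by positivity, ?_⟩
  intro ℓ y E hdg hE hne hy i i'
  set x := crd y with hx
  have hx0 : x ≠ 0 := crd_ne y
  have hdgp := dg_pos' y
  have hdgr : (dg y : ℝ) ≤ r := by exact_mod_cast hdg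
  have hhgt : (dg y : ℝ) * hgt y = Height.logHeight x := by
    unfold hgt
    rw [mul_div_cancel₀ _ hdgp.ne']
  have hh0 : 0 ≤ hgt y := div_nonneg (Height.logHeight_nonneg _) hdgp.le
  have hfd : FiniteDimensional k (fld y) :=
    finiteDimensional_adjoin fun x _ => Algebra.IsIntegral.isIntegral x
  set H : ℝ := ∑ i, ∑ j, Height.logHeight₁ (ℓ i j) with hH
  have hHi : ∀ i, ∑ j, Height.logHeight₁ (ℓ i j) ≤ H := fun i =>
    Finset.single_le_sum (f := fun i => ∑ j, Height.logHeight₁ (ℓ i j))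
      (fun i _ => Finset.sum_nonneg fun j _ => Height.zero_le_logHeight₁ _) (Finset.mem_univ i)
  have hH0 : 0 ≤ H := Finset.sum_nonneg fun i _ => Finset.sum_nonneg fun j _ => Height.zero_le_logHeight₁ _
  set G : Fin q → Pl (fld y) → ℝ := fun i w => gm K (ℓ i) x w with hG
  set A : Fin q → Pl (fld y) → ℝ := fun i w => aa (ℓ i) w with hA
  have hg0 : ∀ i w, 0 ≤ G i w := fun i w => gm_nonneg (ℓ i) x hx0 (hne i) w
  have hA0 : ∀ i w, 0 ≤ A i w := fun i w => aa_nonneg (ℓ i) w
  have hAW : ∀ i (W : Finset (Pl (fld y))), ∑ w ∈ W, A i w ≤ r * H := fun i W =>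
    (sum_aa_le hdg (ℓ i) W).trans (mul_le_mul_of_nonneg_left (hHi i) hr0)
  have hgW : ∀ i (W : Finset (Pl (fld y))),
      ∑ w ∈ W, G i w ≤ Height.logHeight x + r * ∑ j, Height.logHeight₁ (ℓ i j) + B :=
    fun i W => sum_gm_le hdg (ℓ i) x hx0 (hne i) W
  have hgl : ∀ i w, loc w (cst (ℓ i)) x ≤ G i w := fun i w => loc_le_gm (ℓ i) x w
  set z : fld y := ev (cst (ℓ i)) x / ev (cst (ℓ i')) x with hz
  have hz0 : z ≠ 0 := div_ne_zero (hne i) (hne i')
  have hlz : ∀ w, Real.log (nv w z) = G i' w - G i w + A i w - A i' w := by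
    intro w
    have h1 : nv w z = nv w (ev (cst (ℓ i)) x) / nv w (ev (cst (ℓ i')) x) := by
      rw [hz, div_eq_mul_inv, nv_mul, nv_inv, ← div_eq_mul_inv]
    rw [h1, Real.log_div (nv_pos w (hne i)).ne' (nv_pos w (hne i')).ne']
    simp only [hG, hA, gm, loc]
    ring
  constructor
  · refine (logHeight₁_norm_le (k := k) z).trans ?_
    rw [Height.logHeight₁_eq_logHeight]
    have h1 : Height.logHeight ![z, 1] ≤ Height.logHeight x + 2 * (r * H) + B := by
      refine logHeight_le_of (cons_one_ne z) (fun w => G i' w + A i w) _ (fun w => ?_) (fun W => ?_)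
      · rw [sn_two]
        rcases le_total (nv w z) 1 with h | h
        · rw [max_eq_right h, Real.log_one]
          exact add_nonneg (hg0 i' w) (hA0 i w)
        · rw [max_eq_left h, hlz]
          linarith [hg0 i w, hA0 i' w]
      · rw [Finset.sum_add_distrib]
        have h2 := hgW i' W
        have h3 := hAW i W
        have h4 := mul_le_mul_of_nonneg_left (hHi i') hr0
        linarith
    refine h1.trans ?_
    rw [← hhgt]
    have h2 : (dg y : ℝ) * hgt y ≤ r * hgt y := mul_le_mul_of_nonneg_right hdgr hh0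
    have h3 : 0 ≤ (r : ℝ) * H := mul_nonneg hr0 hH0
    have h4 : 0 ≤ (q : ℝ) * B := by positivity
    nlinarith [mul_nonneg h4 hH0, mul_nonneg hB0 hH0]
  · intro T hT
    set T' : Finset (Pl k) := T.image Sum.inr with hT'
    have hST : Disjoint S T' := by
      rw [Finset.disjoint_right]
      intro v hv hvS
      obtain ⟨v', hv', rfl⟩ := Finset.mem_image.mp hv
      exact hT v' hv' hvS
    have hlam : (dg y : ℝ) * lam ℓ S y = ∑ i, ∑ w' ∈ S.biUnion (above (fld y)), loc w' (cst (ℓ i)) x := by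
      unfold lam
      rw [mul_div_cancel₀ _ hdgp.ne', Finset.sum_comm (s := Finset.univ), Finset.sum_biUnion (hdisj_above S)]
      rfl
    have hlam2 : (dg y : ℝ) * lam ℓ S y ≤ ∑ i, ∑ w' ∈ S.biUnion (above (fld y)), G i w' := by
      rw [hlam]
      exact Finset.sum_le_sum fun i _ => Finset.sum_le_sum fun w _ => hgl i w
    have hall : ∑ i, ∑ w' ∈ (S ∪ T').biUnion (above (fld y)), G i w' ≤
        q * Height.logHeight x + r * H + q * B := by
      refine (Finset.sum_le_sum fun i _ => hgW i _).trans (le_of_eq ?_)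
      rw [Finset.sum_add_distrib, Finset.sum_add_distrib, ← Finset.mul_sum]
      simp only [Finset.sum_const, Finset.card_univ, Fintype.card_fin, nsmul_eq_mul]
      rfl
    have hsplit : ∑ i, ∑ w' ∈ (S ∪ T').biUnion (above (fld y)), G i w' =
        ∑ i, ∑ w' ∈ S.biUnion (above (fld y)), G i w' + ∑ i, ∑ w' ∈ T'.biUnion (above (fld y)), G i w' := by
      rw [← Finset.sum_add_distrib]
      refine Finset.sum_congr rfl fun i _ => ?_
      rw [Finset.sum_biUnion (hdisj_above _), Finset.sum_union hST, Finset.sum_biUnion (hdisj_above _),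
        Finset.sum_biUnion (hdisj_above _)]
    have hT1 : ∑ i, ∑ w' ∈ T'.biUnion (above (fld y)), G i w' ≤ r * E + r * H + q * B := by
      have h1 : (dg y : ℝ) * (q * hgt y - E) ≤ dg y * lam ℓ S y := mul_le_mul_of_nonneg_left hy hdgp.le
      have h2 : (dg y : ℝ) * E ≤ r * E := mul_le_mul_of_nonneg_right hdgr hE
      rw [hsplit] at hall
      rw [← hhgt] at hall
      nlinarith
    have hT2 : ∑ v ∈ T, |Real.log (v (Algebra.norm k z))| ≤
        ∑ w' ∈ T'.biUnion (above (fld y)), (G i w' + G i' w' + (A i w' + A i' w')) := by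
      rw [Finset.sum_biUnion (hdisj_above _), hT', Finset.sum_image (fun a _ b _ h => Sum.inr_injective h)]
      refine Finset.sum_le_sum fun v _ => ?_
      have h1 : v (Algebra.norm k z) = nv (.inr v) (Algebra.norm k z) := rfl
      rw [h1, Pool.Agent.Helper52.Vojta.nv_norm, Real.log_prod (fun w _ => (nv_pos w hz0).ne')]
      refine (Finset.abs_sum_le_sum_abs _ _).trans (Finset.sum_le_sum fun w _ => ?_)
      rw [hlz, abs_le]
      have := hg0 i w
      have := hg0 i' w
      have := hA0 i w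
      have := hA0 i' w
      constructor <;> linarith
    have hT3 : ∀ i, ∑ w' ∈ T'.biUnion (above (fld y)), G i w' ≤ r * E + r * H + q * B := fun i =>
      (Finset.single_le_sum (f := fun i => ∑ w' ∈ T'.biUnion (above (fld y)), G i w')
        (fun i _ => Finset.sum_nonneg fun w _ => hg0 i w) (Finset.mem_univ i)).trans hT1
    refine hT2.trans ?_
    rw [Finset.sum_add_distrib, Finset.sum_add_distrib, Finset.sum_add_distrib]
    have h4 := hT3 i
    have h5 := hT3 i'
    have h6 := hAW i (T'.biUnion (above (fld y)))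
    have h7 := hAW i' (T'.biUnion (above (fld y)))
    have h8 : 0 ≤ (r : ℝ) * H := mul_nonneg hr0 hH0
    have h9 : 0 ≤ (q : ℝ) * B := by positivity
    nlinarith [mul_nonneg h9 hH0, mul_nonneg hB0 hH0]

/-- Points of degree `r`, with moving forms. -/
theorem units_plus_m (S : Finset (Pl k)) {n q : ℕ} (r : ℕ) (i₀ : Fin q) :
    ∃ c : ℝ, 0 ≤ c ∧ ∀ (ℓ : Fin q → Fin (n + 1) → k) (y : Fin n → AlgebraicClosure k) (E : ℝ), dg y = r → 0 ≤ E →
      (∀ i, ∑ j, algebraMap k (fld y) (ℓ i j) * crd y j ≠ 0) → q * hgt y - E ≤ lam ℓ S y →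
      ∃ (x : Fin r → Fin (n + 1) → AlgebraicClosure k) (s₀ : Fin r) (c' : AlgebraicClosure k)
        (u : Fin q → k), c' ≠ 0 ∧
        (∀ j, x s₀ j = c' * (Fin.cons 1 y : Fin (n + 1) → AlgebraicClosure k) j) ∧
        (∀ s, ∑ j, algebraMap k (AlgebraicClosure k) (ℓ i₀ j) * x s j = 1) ∧
        (∀ i, u i ≠ 0 ∧ algebraMap k (AlgebraicClosure k) (u i) =
          ∏ s, ∑ j, algebraMap k (AlgebraicClosure k) (ℓ i j) * x s j) ∧
        (∀ i, Height.logHeight₁ (u i) ≤ (r : ℝ) * hgt y + c * (1 + ∑ i, ∑ j, Height.logHeight₁ (ℓ i j))) ∧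
        (∀ (i : Fin q) (T : Finset (FinitePlace k)), (∀ v ∈ T, (Sum.inr v : Pl k) ∉ S) →
          ∑ v ∈ T, |Real.log (v (u i))| ≤
            2 * (r : ℝ) * E + c * (1 + ∑ i, ∑ j, Height.logHeight₁ (ℓ i j))) ∧
        ∀ (s : Fin r) (d : ℕ) (f : MvPolynomial (Fin (n + 1)) k), f.IsHomogeneous d →
          MvPolynomial.aeval (Fin.cons 1 y : Fin (n + 1) → AlgebraicClosure k) f = 0 →
            MvPolynomial.aeval (x s) f = 0 := by
  classical
  obtain ⟨c, hc, hcore⟩ := core_m (n := n) (q := q) S r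
  refine ⟨c, hc, fun ℓ y E hdg hE hne hy => ?_⟩
  have hfd : FiniteDimensional k (fld y) :=
    finiteDimensional_adjoin fun x _ => Algebra.IsIntegral.isIntegral x
  set x := crd y with hx
  set t : Fin q → fld y := fun i => ev (cst (ℓ i)) x with ht
  have ht0 : ∀ i, t i ≠ 0 := hne
  have hc2 := hcore ℓ y E hdg.le hE hne hy
  -- the embeddings
  have hcard : Fintype.card (fld y →ₐ[k] AlgebraicClosure k) = r := by
    rw [AlgHom.card, ← hdg]
    rfl
  let e : Fin r ≃ (fld y →ₐ[k] AlgebraicClosure k) := (Fintype.equivFinOfCardEq hcard).symm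
  let φ : fld y →ₐ[k] AlgebraicClosure k := (fld y).val
  have hlin : ∀ (σ : fld y →ₐ[k] AlgebraicClosure k) (i : Fin q),
      ∑ j, algebraMap k (AlgebraicClosure k) (ℓ i j) * σ (x j / t i₀) = σ (t i / t i₀) := by
    intro σ i
    have h1 : t i / t i₀ = ∑ j, algebraMap k (fld y) (ℓ i j) * (x j / t i₀) := by
      simp only [ht, ev, cst, Finset.sum_div, mul_div_assoc]
    rw [h1, map_sum]
    exact Finset.sum_congr rfl fun j _ => by rw [map_mul, AlgHom.commutes]
  refine ⟨fun s j => e s (x j / t i₀), e.symm φ, φ (t i₀)⁻¹, fun i => Algebra.norm k (t i / t i₀),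
    ?_, ?_, ?_, ?_, ?_, ?_, ?_⟩
  · rw [Ne, map_eq_zero_iff φ φ.injective]
    exact inv_ne_zero (ht0 i₀)
  · intro j
    show e (e.symm φ) (x j / t i₀) = _
    rw [Equiv.apply_symm_apply, div_eq_mul_inv, map_mul, mul_comm]
    congr 1
    refine Fin.cases ?_ (fun j => ?_) j
    · rw [Fin.cons_zero]
      show φ (crd y 0) = 1
      have : crd y 0 = 1 := rfl
      rw [this, map_one]
    · rfl
  · intro s
    show ∑ j, algebraMap k (AlgebraicClosure k) (ℓ i₀ j) * e s (x j / t i₀) = 1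
    rw [hlin, div_self (ht0 i₀), map_one]
  · intro i
    refine ⟨?_, ?_⟩
    · rw [Ne, Algebra.norm_eq_zero_iff]
      exact div_ne_zero (ht0 i) (ht0 i₀)
    · rw [Algebra.norm_eq_prod_embeddings k (AlgebraicClosure k) (t i / t i₀)]
      rw [← Equiv.prod_comp e]
      exact Finset.prod_congr rfl fun s _ => (hlin _ _).symm
  · exact fun i => (hc2 i i₀).1
  · exact fun i => (hc2 i i₀).2
  · intro s d f hf h0
    have hφ : (Fin.cons 1 y : Fin (n + 1) → AlgebraicClosure k) = fun j => φ (x j) := by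
      funext j
      refine Fin.cases ?_ (fun j => ?_) j
      · rw [Fin.cons_zero]
        show _ = φ (crd y 0)
        have : crd y 0 = 1 := rfl
        rw [this, map_one]
      · rfl
    have h1 : MvPolynomial.aeval x f = 0 := by
      rw [hφ, ← MvPolynomial.comp_aeval_apply] at h0
      exact (map_eq_zero_iff φ φ.injective).mp h0
    show MvPolynomial.aeval (fun j => e s (x j / t i₀)) f = 0
    rw [← MvPolynomial.comp_aeval_apply]
    have h2 : (fun j => x j / t i₀) = fun j => (t i₀)⁻¹ * x j := by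
      funext j
      rw [div_eq_mul_inv, mul_comm]
    rw [h2, Pool.Agent.Helper64.GS.aeval_scale hf, h1, mul_zero, map_zero]

end Pool.Agent.EXP
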