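import Pool.Agent.Helper17.EXP.UnitsPlus

/-!
# Units+ with coefficients depending only on the degree

The bounds of `units_plus_r` with explicit coefficients: the norm forms have height at most `r h(y) + C`, and
`∑_{v ∉ S} |log |u_i|_v| ≤ 2 r E + C`; only `C` depends on the number field, on `S` and on the linear forms.
-/

set_option autoImplicit false

namespace Pool.Agent.EXP

open NumberField IntermediateField Pool.Agent.Helper64.Vojta Pool.Agent.VZ Pool.Agent.SL

universe u

variable {k : Type u} [Field k] [NumberField k]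

/-- The core estimate, with explicit coefficients. -/
theorem core_u (S : Finset (Pl k)) {n q : ℕ} (r : ℕ) (ℓ : Fin q → Fin (n + 1) → k) :
    ∃ c : ℝ, 0 ≤ c ∧ ∀ (y : Fin n → AlgebraicClosure k) (E : ℝ), dg y ≤ r → 0 ≤ E →
      (∀ i, ev (cst (ℓ i)) (crd y) ≠ 0) → q * hgt y - E ≤ lam ℓ S y → ∀ i i' : Fin q,
        Height.logHeight₁ (Algebra.norm k (ev (cst (ℓ i)) (crd y) / ev (cst (ℓ i')) (crd y))) ≤
          (r : ℝ) * hgt y + c ∧
        ∀ T : Finset (FinitePlace k), (∀ v ∈ T, (Sum.inr v : Pl k) ∉ S) →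
          ∑ v ∈ T, |Real.log (v (Algebra.norm k (ev (cst (ℓ i)) (crd y) / ev (cst (ℓ i')) (crd y))))| ≤
            2 * (r : ℝ) * E + c := by
  classical
  obtain ⟨s, K, K', hs, hK, hK', hg⟩ := gg_props ℓ r
  set A : ℝ := q * K' + q * K' * (r * S.card) with hA
  have hA0 : 0 ≤ A := by positivity
  refine ⟨K' + 2 * A, by positivity, ?_⟩
  intro y E hdg hE hne hy i i'
  set x := crd y with hx
  have hx0 : x ≠ 0 := crd_ne y
  have hdgp := dg_pos' y
  have hdgr : (dg y : ℝ) ≤ r := by exact_mod_cast hdg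
  have hhgt : (dg y : ℝ) * hgt y = Height.logHeight x := by
    unfold hgt
    rw [mul_div_cancel₀ _ hdgp.ne']
  have hh0 : 0 ≤ hgt y := div_nonneg (Height.logHeight_nonneg _) hdgp.le
  have hfd : FiniteDimensional k (fld y) :=
    finiteDimensional_adjoin fun x _ => Algebra.IsIntegral.isIntegral x
  set G : Fin q → Pl (fld y) → ℝ := fun i w => gg s K (ℓ i) x w with hG
  have hg0 : ∀ i w, 0 ≤ G i w := fun i w => (hg (fld y) hdg x hx0 i (hne i)).1 w
  have hgW : ∀ i (W : Finset (Pl (fld y))), ∑ w ∈ W, G i w ≤ Height.logHeight x + K' :=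
    fun i => (hg (fld y) hdg x hx0 i (hne i)).2.1
  have hgl : ∀ i w, loc w (cst (ℓ i)) x ≤ G i w + K' := fun i => (hg (fld y) hdg x hx0 i (hne i)).2.2
  set z : fld y := ev (cst (ℓ i)) x / ev (cst (ℓ i')) x with hz
  have hz0 : z ≠ 0 := div_ne_zero (hne i) (hne i')
  have hlz : ∀ w, Real.log (nv w z) = G i' w - G i w := by
    intro w
    have h1 : nv w z = nv w (ev (cst (ℓ i)) x) / nv w (ev (cst (ℓ i')) x) := by
      rw [hz, div_eq_mul_inv, nv_mul, nv_inv, ← div_eq_mul_inv]
    rw [h1, Real.log_div (nv_pos w (hne i)).ne' (nv_pos w (hne i')).ne']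
    simp only [hG, gg, loc]
    ring
  constructor
  · refine (logHeight₁_norm_le (k := k) z).trans ?_
    rw [Height.logHeight₁_eq_logHeight]
    have h1 : Height.logHeight ![z, 1] ≤ Height.logHeight x + K' := by
      refine logHeight_le_of (cons_one_ne z) (G i') _ (fun w => ?_) (hgW i')
      rw [sn_two]
      rcases le_total (nv w z) 1 with h | h
      · rw [max_eq_right h, Real.log_one]
        exact hg0 i' w
      · rw [max_eq_left h, hlz]
        linarith [hg0 i w]
    refine h1.trans ?_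
    rw [← hhgt]
    have h2 : (dg y : ℝ) * hgt y ≤ r * hgt y := mul_le_mul_of_nonneg_right hdgr hh0
    have h3 : 0 ≤ (r : ℝ) := Nat.cast_nonneg _
    nlinarith [mul_nonneg hK' hh0, mul_nonneg hA0 hh0, mul_nonneg h3 hh0]
  · intro T hT
    -- the places
    have hdisj : ∀ S' : Finset (Pl k), (S' : Set (Pl k)).PairwiseDisjoint (above (fld y)) := by
      intro S' a _ b _ hab
      rw [Function.onFun, Finset.disjoint_left]
      intro w hwa hwb
      exact hab (above_unique (mem_above.mp hwa) (mem_above.mp hwb))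
    set T' : Finset (Pl k) := T.image Sum.inr with hT'
    have hST : Disjoint S T' := by
      rw [Finset.disjoint_right]
      intro v hv hvS
      obtain ⟨v', hv', rfl⟩ := Finset.mem_image.mp hv
      exact hT v' hv' hvS
    have hcard : ((S.biUnion (above (fld y))).card : ℝ) ≤ r * S.card := by
      have h1 : (S.biUnion (above (fld y))).card ≤ ∑ ν ∈ S, (above (fld y) ν).card :=
        Finset.card_biUnion_le
      have h2 : ∑ ν ∈ S, (above (fld y) ν).card ≤ ∑ ν ∈ S, r :=
        Finset.sum_le_sum fun ν _ => (card_above_le ν).trans hdg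
      rw [Finset.sum_const, smul_eq_mul, mul_comm] at h2
      exact_mod_cast h1.trans h2
    have hlam : (dg y : ℝ) * lam ℓ S y = ∑ i, ∑ w' ∈ S.biUnion (above (fld y)), loc w' (cst (ℓ i)) x := by
      unfold lam
      rw [mul_div_cancel₀ _ hdgp.ne', Finset.sum_comm (s := Finset.univ), Finset.sum_biUnion (hdisj S)]
      rfl
    have hlam2 : (dg y : ℝ) * lam ℓ S y ≤
        ∑ i, ∑ w' ∈ S.biUnion (above (fld y)), G i w' + q * K' * (r * S.card) := by
      rw [hlam]
      have h1 : ∑ i, ∑ w' ∈ S.biUnion (above (fld y)), loc w' (cst (ℓ i)) x ≤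
          ∑ i, ∑ w' ∈ S.biUnion (above (fld y)), (G i w' + K') :=
        Finset.sum_le_sum fun i _ => Finset.sum_le_sum fun w _ => hgl i w
      refine h1.trans ?_
      simp only [Finset.sum_add_distrib, Finset.sum_const, Finset.card_univ, Fintype.card_fin, nsmul_eq_mul]
      have h2 : (q : ℝ) * (((S.biUnion (above (fld y))).card : ℝ) * K') ≤ q * (r * S.card * K') :=
        mul_le_mul_of_nonneg_left (mul_le_mul_of_nonneg_right hcard hK') (Nat.cast_nonneg _)
      linarith
    have hall : ∑ i, ∑ w' ∈ (S ∪ T').biUnion (above (fld y)), G i w' ≤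
        q * (Height.logHeight x + K') := by
      refine (Finset.sum_le_sum fun i _ => hgW i _).trans (le_of_eq ?_)
      rw [Finset.sum_const, Finset.card_univ, Fintype.card_fin, nsmul_eq_mul]
    have hsplit : ∑ i, ∑ w' ∈ (S ∪ T').biUnion (above (fld y)), G i w' =
        ∑ i, ∑ w' ∈ S.biUnion (above (fld y)), G i w' + ∑ i, ∑ w' ∈ T'.biUnion (above (fld y)), G i w' := by
      rw [← Finset.sum_add_distrib]
      refine Finset.sum_congr rfl fun i _ => ?_
      rw [Finset.sum_biUnion (hdisj _), Finset.sum_union hST, Finset.sum_biUnion (hdisj _),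
        Finset.sum_biUnion (hdisj _)]
    have hT1 : ∑ i, ∑ w' ∈ T'.biUnion (above (fld y)), G i w' ≤ r * E + A := by
      have h1 : (dg y : ℝ) * (q * hgt y - E) ≤ dg y * lam ℓ S y := mul_le_mul_of_nonneg_left hy hdgp.le
      have h2 : (dg y : ℝ) * E ≤ r * E := mul_le_mul_of_nonneg_right hdgr hE
      rw [hA]
      rw [hsplit] at hall
      rw [← hhgt] at hall
      nlinarith
    have hT2 : ∑ v ∈ T, |Real.log (v (Algebra.norm k z))| ≤
        ∑ w' ∈ T'.biUnion (above (fld y)), (G i w' + G i' w') := by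
      rw [Finset.sum_biUnion (hdisj _), hT', Finset.sum_image (fun a _ b _ h => Sum.inr_injective h)]
      refine Finset.sum_le_sum fun v _ => ?_
      have h1 : v (Algebra.norm k z) = nv (.inr v) (Algebra.norm k z) := rfl
      rw [h1, Pool.Agent.Helper52.Vojta.nv_norm, Real.log_prod (fun w _ => (nv_pos w hz0).ne')]
      refine (Finset.abs_sum_le_sum_abs _ _).trans (Finset.sum_le_sum fun w _ => ?_)
      rw [hlz, abs_le]
      have := hg0 i w
      have := hg0 i' w
      constructor <;> linarith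
    have hT3 : ∀ i, ∑ w' ∈ T'.biUnion (above (fld y)), G i w' ≤ r * E + A := fun i =>
      (Finset.single_le_sum (f := fun i => ∑ w' ∈ T'.biUnion (above (fld y)), G i w')
        (fun i _ => Finset.sum_nonneg fun w _ => hg0 i w) (Finset.mem_univ i)).trans hT1
    refine hT2.trans ?_
    rw [Finset.sum_add_distrib]
    have h4 := hT3 i
    have h5 := hT3 i'
    have h3 : 0 ≤ (r : ℝ) := Nat.cast_nonneg _
    nlinarith [mul_nonneg hK' hE, mul_nonneg hA0 hE, mul_nonneg h3 hE]

/-- Points of degree `r`, general version, with explicit coefficients. -/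
theorem units_plus_u (S : Finset (Pl k)) {n q : ℕ} (r : ℕ) (ℓ : Fin q → Fin (n + 1) → k) (i₀ : Fin q) :
    ∃ c : ℝ, 0 ≤ c ∧ ∀ (y : Fin n → AlgebraicClosure k) (E : ℝ), dg y = r → 0 ≤ E →
      (∀ i, ∑ j, algebraMap k (fld y) (ℓ i j) * crd y j ≠ 0) → q * hgt y - E ≤ lam ℓ S y →
      ∃ (x : Fin r → Fin (n + 1) → AlgebraicClosure k) (s₀ : Fin r) (c' : AlgebraicClosure k)
        (u : Fin q → k), c' ≠ 0 ∧
        (∀ j, x s₀ j = c' * (Fin.cons 1 y : Fin (n + 1) → AlgebraicClosure k) j) ∧
        (∀ s, ∑ j, algebraMap k (AlgebraicClosure k) (ℓ i₀ j) * x s j = 1) ∧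
        (∀ i, u i ≠ 0 ∧ algebraMap k (AlgebraicClosure k) (u i) =
          ∏ s, ∑ j, algebraMap k (AlgebraicClosure k) (ℓ i j) * x s j) ∧
        (∀ i, Height.logHeight₁ (u i) ≤ (r : ℝ) * hgt y + c) ∧
        (∀ (i : Fin q) (T : Finset (FinitePlace k)), (∀ v ∈ T, (Sum.inr v : Pl k) ∉ S) →
          ∑ v ∈ T, |Real.log (v (u i))| ≤ 2 * (r : ℝ) * E + c) ∧
        ∀ (s : Fin r) (d : ℕ) (f : MvPolynomial (Fin (n + 1)) k), f.IsHomogeneous d →
          MvPolynomial.aeval (Fin.cons 1 y : Fin (n + 1) → AlgebraicClosure k) f = 0 →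
            MvPolynomial.aeval (x s) f = 0 := by
  classical
  obtain ⟨c, hc, hcore⟩ := core_u S r ℓ
  refine ⟨c, hc, fun y E hdg hE hne hy => ?_⟩
  have hfd : FiniteDimensional k (fld y) :=
    finiteDimensional_adjoin fun x _ => Algebra.IsIntegral.isIntegral x
  set x := crd y with hx
  set t : Fin q → fld y := fun i => ev (cst (ℓ i)) x with ht
  have ht0 : ∀ i, t i ≠ 0 := hne
  have hc2 := hcore y E hdg.le hE hne hy
  -- the embeddings
  have hcard : Fintype.card (fld y →ₐ[k] AlgebraicClosure k) = r := by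
    rw [AlgHom.card, ← hdg]
    rfl
  let e : Fin r ≃ (fld y →ₐ[k] AlgebraicClosure k) := (Fintype.equivFinOfCardEq hcard).symm
  let φ : fld y →ₐ[k] AlgebraicClosure k := (fld y).val
  have hlin : ∀ (σ : fld y →ₐ[k] AlgebraicClosure k) (i : Fin q),
      ∑ j, algebraMap k (AlgebraicClosure k) (ℓ i j) * σ (x j / t i₀) = σ (t i / t i₀) := by
    intro σ i
    have h1 : t i / t i₀ = ∑ j, algebraMap k (fld y) (ℓ i j) * (x j / t i₀) := by
      simp only [ht, ev, cst, Finset.sum_div, mul_div_assoc]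
    rw [h1, map_sum]
    exact Finset.sum_congr rfl fun j _ => by rw [map_mul, AlgHom.commutes]
  refine ⟨fun s j => e s (x j / t i₀), e.symm φ, φ (t i₀)⁻¹, fun i => Algebra.norm k (t i / t i₀),
    ?_, ?_, ?_, ?_, ?_, ?_, ?_⟩
  · rw [Ne, map_eq_zero_iff φ φ.injective]
    exact inv_ne_zero (ht0 i₀)
  · intro j
    show e (e.symm φ) (x j / t i₀) = _
    rw [Equiv.apply_symm_apply, div_eq_mul_inv, map_mul, mul_comm]
    congr 1
    refine Fin.cases ?_ (fun j => ?_) j
    · rw [Fin.cons_zero]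
      show φ (crd y 0) = 1
      have : crd y 0 = 1 := rfl
      rw [this, map_one]
    · rfl
  · intro s
    show ∑ j, algebraMap k (AlgebraicClosure k) (ℓ i₀ j) * e s (x j / t i₀) = 1
    rw [hlin, div_self (ht0 i₀), map_one]
  · intro i
    refine ⟨?_, ?_⟩
    · rw [Ne, Algebra.norm_eq_zero_iff]
      exact div_ne_zero (ht0 i) (ht0 i₀)
    · rw [Algebra.norm_eq_prod_embeddings k (AlgebraicClosure k) (t i / t i₀)]
      rw [← Equiv.prod_comp e]
      exact Finset.prod_congr rfl fun s _ => (hlin _ _).symm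
  · exact fun i => (hc2 i i₀).1
  · exact fun i => (hc2 i i₀).2
  · intro s d f hf h0
    have hφ : (Fin.cons 1 y : Fin (n + 1) → AlgebraicClosure k) = fun j => φ (x j) := by
      funext j
      refine Fin.cases ?_ (fun j => ?_) j
      · rw [Fin.cons_zero]
        show _ = φ (crd y 0)
        have : crd y 0 = 1 := rfl
        rw [this, map_one]
      · rfl
    have h1 : MvPolynomial.aeval x f = 0 := by
      rw [hφ, ← MvPolynomial.comp_aeval_apply] at h0
      exact (map_eq_zero_iff φ φ.injective).mp h0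
    show MvPolynomial.aeval (fun j => e s (x j / t i₀)) f = 0
    rw [← MvPolynomial.comp_aeval_apply]
    have h2 : (fun j => x j / t i₀) = fun j => (t i₀)⁻¹ * x j := by
      funext j
      rw [div_eq_mul_inv, mul_comm]
    rw [h2, Pool.Agent.Helper64.GS.aeval_scale hf, h1, mul_zero, map_zero]

end Pool.Agent.EXP
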